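import Pool.Agent.helper9.TH.Spec

namespace Pool.Agent.helper94.TH

open Pool.Agent.helper9.TH

universe u

/-- normalizers lift over a normal subgroup of order prime to `p` -/
theorem norm_surj {p : ℕ} (hp : p.Prime) {G : Type u} [Group G] [Finite G] (M X : Subgroup G)
    [M.Normal] (hM : (Nat.card M).Coprime p) (hX : IsPGroup p X) (g : G)
    (hg : QuotientGroup.mk' M g ∈
      Subgroup.normalizer (X.map (QuotientGroup.mk' M) : Set (G ⧸ M))) :
    ∃ u : G, u ∈ Subgroup.normalizer (X : Set G) ∧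
      QuotientGroup.mk' M u = QuotientGroup.mk' M g := by
  have : Fact p.Prime := ⟨hp⟩
  set π := QuotientGroup.mk' M with hπ
  have hsurj : Function.Surjective π := QuotientGroup.mk'_surjective M
  have hker : π.ker = M := QuotientGroup.ker_mk' M
  set X' := X.map π with hX'
  set H := X'.comap π with hH
  have hgH : g ∈ Subgroup.normalizer (H : Set G) := by
    rw [← Subgroup.comap_normalizer_eq_of_surjective X' hsurj]
    exact hg
  have hXH : X ≤ H := Subgroup.le_comap_map π X
  -- trivial intersection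
  have hXM : ∀ x ∈ X, x ∈ M → x = 1 := by
    intro x hx hm
    obtain ⟨k, hk⟩ := hX ⟨x, hx⟩
    have h1 : orderOf x ∣ p ^ k := by
      rw [orderOf_dvd_iff_pow_eq_one]
      simpa using congrArg Subtype.val hk
    have h2 : orderOf x ∣ Nat.card M := by
      have := orderOf_dvd_natCard (⟨x, hm⟩ : M)
      rwa [Subgroup.orderOf_mk] at this
    have h3 : orderOf x = 1 :=
      Nat.eq_one_of_dvd_coprimes (hM.pow_right k) h2 h1
    exact orderOf_eq_one_iff.1 h3
  have hinj : Set.InjOn π (X : Set G) := by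
    intro a ha b hb hab
    have : a⁻¹ * b ∈ π.ker := by
      rw [MonoidHom.mem_ker, map_mul, map_inv, hab, inv_mul_cancel]
    rw [hker] at this
    have h1 := hXM _ (X.mul_mem (X.inv_mem ha) hb) this
    exact (inv_mul_eq_one.1 h1)
  have hcX : Nat.card X' = Nat.card X := by
    have : (X' : Set (G ⧸ M)) = π '' (X : Set G) := rfl
    have h2 : Nat.card (π '' (X : Set G)) = Nat.card (X : Set G) :=
      Nat.card_image_of_injOn hinj
    exact h2
  have hcH : Nat.card H = Nat.card X * Nat.card M := by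
    have h1 : Nat.card H * H.index = Nat.card G := Subgroup.card_mul_index H
    have h2 : H.index = X'.index := Subgroup.index_comap_of_surjective X' hsurj
    have h3 : Nat.card X' * X'.index = Nat.card (G ⧸ M) := Subgroup.card_mul_index X'
    have h4 : Nat.card G = Nat.card (G ⧸ M) * Nat.card M :=
      Subgroup.card_eq_card_quotient_mul_card_subgroup M
    have h5 : X'.index ≠ 0 := Subgroup.index_ne_zero_of_finite
    rw [h2, h4, ← h3, hcX] at h1
    have h6 : Nat.card H * X'.index = (Nat.card X * Nat.card M) * X'.index := by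
      rw [h1]; ring
    exact Nat.eq_of_mul_eq_mul_right (Nat.pos_of_ne_zero h5) h6
  -- the two Sylow subgroups
  have sub : ∀ Y : Subgroup G, Y ≤ H → IsPGroup p Y → Nat.card Y = Nat.card X →
      ∃ S : Sylow p H, (S : Subgroup H) = Y.subgroupOf H := by
    intro Y hY hYp hYc
    have hp1 : IsPGroup p (Y.subgroupOf H) :=
      hYp.comap_of_injective H.subtype H.subtype_injective
    have hc : Nat.card (Y.subgroupOf H) = Nat.card X := by
      rw [← hYc]
      exact Nat.card_congr (Subgroup.subgroupOfEquivOfLe hY).toEquiv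
    have hidx : (Y.subgroupOf H).index = Nat.card M := by
      have h1 := Subgroup.card_mul_index (Y.subgroupOf H)
      rw [hc, hcH] at h1
      exact Nat.eq_of_mul_eq_mul_left Nat.card_pos h1
    have hnd : ¬ p ∣ (Y.subgroupOf H).index := by
      rw [hidx]
      exact (Nat.Prime.coprime_iff_not_dvd hp).1 hM.symm
    exact ⟨hp1.toSylow hnd, rfl⟩
  obtain ⟨S1, hS1⟩ := sub X hXH hX rfl
  set Y := X.map (MulAut.conj g).toMonoidHom with hY
  have hYH : Y ≤ H := by
    rintro _ ⟨x, hx, rfl⟩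
    have := (Subgroup.mem_normalizer_iff.1 hgH x).1 (hXH hx)
    exact this
  have hYc : Nat.card Y = Nat.card X :=
    (Nat.card_congr (X.equivMapOfInjective _ (MulAut.conj g).injective).toEquiv).symm
  obtain ⟨S2, hS2⟩ := sub Y hYH (hX.map _) hYc
  obtain ⟨h, hh⟩ := MulAction.exists_smul_eq H S1 S2
  have hmem : ∀ z : H, z ∈ S2 ↔ h⁻¹ * z * h ∈ S1 := by
    intro z
    rw [← hh, ← SetLike.mem_coe, Sylow.coe_smul, Set.mem_smul_set_iff_inv_smul_mem]
    simp [← map_inv, MulAut.smul_def, MulAut.conj_apply]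
  have hS1m : ∀ z : H, z ∈ S1 ↔ (z : G) ∈ X := by
    intro z
    have : z ∈ (S1 : Subgroup H) ↔ (z : G) ∈ X := by rw [hS1]; exact Iff.rfl
    exact this
  have hS2m : ∀ z : H, z ∈ S2 ↔ (z : G) ∈ Y := by
    intro z
    have : z ∈ (S2 : Subgroup H) ↔ (z : G) ∈ Y := by rw [hS2]; exact Iff.rfl
    exact this
  have hYm : ∀ z : G, z ∈ Y ↔ g⁻¹ * z * g ∈ X := by
    intro z
    constructor
    · rintro ⟨x, hx, rfl⟩
      have : g⁻¹ * (g * x * g⁻¹) * g = x := by group
      simpa [this] using hx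
    · intro hz
      exact ⟨_, hz, by simp [MulAut.conj_apply]; group⟩
  have hN : (h : G)⁻¹ * g ∈ Subgroup.normalizer (X : Set G) := by
    rw [Subgroup.mem_normalizer_iff]
    intro x
    constructor
    · intro hx
      have hxY : g * x * g⁻¹ ∈ Y := by
        rw [hYm]
        have : g⁻¹ * (g * x * g⁻¹) * g = x := by group
        rwa [this]
      have h1 := (hmem ⟨g * x * g⁻¹, hYH hxY⟩).1 ((hS2m _).2 hxY)
      rw [hS1m] at h1
      have h2 : (h : G)⁻¹ * g * x * ((h : G)⁻¹ * g)⁻¹ = (h : G)⁻¹ * (g * x * g⁻¹) * h := by group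
      rw [h2]
      exact h1
    · intro hx
      have hxH : (h : G)⁻¹ * g * x * ((h : G)⁻¹ * g)⁻¹ ∈ H := hXH hx
      have hz : g * x * g⁻¹ ∈ H := by
        have : g * x * g⁻¹ = (h : G) * ((h : G)⁻¹ * g * x * ((h : G)⁻¹ * g)⁻¹) * (h : G)⁻¹ := by
          group
        rw [this]
        exact H.mul_mem (H.mul_mem h.2 hxH) (H.inv_mem h.2)
      have h1 : (⟨g * x * g⁻¹, hz⟩ : H) ∈ S2 := by
        rw [hmem, hS1m]
        have h2 : (h : G)⁻¹ * g * x * ((h : G)⁻¹ * g)⁻¹ = (h : G)⁻¹ * (g * x * g⁻¹) * h := by group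
        rw [h2] at hx
        exact hx
      rw [hS2m, hYm] at h1
      have h3 : g⁻¹ * (g * x * g⁻¹) * g = x := by group
      simpa [h3] using h1
  obtain ⟨x0, hx0, hx0'⟩ : (π (h : G)) ∈ X' := h.2
  refine ⟨x0 * ((h : G)⁻¹ * g), Subgroup.mul_mem _ (Subgroup.le_normalizer hx0) hN, ?_⟩
  rw [map_mul, map_mul, map_inv, hx0']
  group

theorem S4 (hJa : JBa_stmt.{u}) (hPa : PBa_stmt.{u}) : S4_stmt.{u} := by
  intro p G _ _ P hp hI hH hn M hMn hM
  obtain ⟨hJle, hOle, hJ3, hO4, -, -⟩ := hJa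
  obtain ⟨-, hPa2, hPa3⟩ := hPa
  obtain ⟨hSyl, hPN1, hPN2⟩ := hH
  have := hMn
  by_contra hne
  apply hn
  set π := QuotientGroup.mk' M with hπ
  have hsurj : Function.Surjective π := QuotientGroup.mk'_surjective M
  have hker : π.ker = M := QuotientGroup.ker_mk' M
  have hPM : ∀ x ∈ P, x ∈ M → x = 1 := by
    intro x hx hm
    obtain ⟨k, hk⟩ := hSyl.1 ⟨x, hx⟩
    have h1 : orderOf x ∣ p ^ k := by
      rw [orderOf_dvd_iff_pow_eq_one]
      simpa using congrArg Subtype.val hk
    have h2 : orderOf x ∣ Nat.card M := by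
      have := orderOf_dvd_natCard (⟨x, hm⟩ : M)
      rwa [Subgroup.orderOf_mk] at this
    have h3 : orderOf x = 1 :=
      Nat.eq_one_of_dvd_coprimes (hM.pow_right k) h2 h1
    exact orderOf_eq_one_iff.1 h3
  have hfinj : Function.Injective (π.comp P.subtype) := by
    rw [← MonoidHom.ker_eq_bot_iff, eq_bot_iff]
    intro x hx
    have h1 : (x : G) ∈ π.ker := hx
    rw [hker] at h1
    exact Subtype.ext (hPM _ x.2 h1)
  have hmapT : (⊤ : Subgroup P).map P.subtype = P := by
    rw [← MonoidHom.range_eq_map, Subgroup.range_subtype]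
  have hmapT' : (⊤ : Subgroup P).map (π.comp P.subtype) = P.map π := by
    rw [← Subgroup.map_map, hmapT]
  have hJJ : JJ p (P.map π) = (JJ p P).map π := by
    have h1 := hJ3 p P (G ⧸ M) (π.comp P.subtype) ⊤ hfinj
    have h2 := hJ3 p P G P.subtype ⊤ P.subtype_injective
    rw [hmapT'] at h1
    rw [hmapT] at h2
    rw [h1, h2, Subgroup.map_map]
  have hOZ : OZ p (P.map π) = (OZ p P).map π := by
    have h1 := hO4 p P (G ⧸ M) (π.comp P.subtype) ⊤ hfinj
    have h2 := hO4 p P G P.subtype ⊤ P.subtype_injective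
    rw [hmapT'] at h1
    rw [hmapT] at h2
    rw [h1, h2, Subgroup.map_map]
  have key : ∀ X : Subgroup G, X ≤ P → PN p (Subgroup.normalizer (X : Set G)) →
      PN p (Subgroup.normalizer (X.map π : Set (G ⧸ M))) := by
    intro X hXP hPN
    have hXp : IsPGroup p X := hSyl.1.to_le hXP
    have hin : ∀ g : G, g ∈ Subgroup.normalizer (X : Set G) →
        π g ∈ Subgroup.normalizer (X.map π : Set (G ⧸ M)) := by
      intro g hg
      exact Subgroup.le_normalizer_map π (Subgroup.mem_map_of_mem π hg)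
    let f : Subgroup.normalizer (X : Set G) →* Subgroup.normalizer (X.map π : Set (G ⧸ M)) :=
      (π.comp (Subgroup.subtype _)).codRestrict _ (fun x => hin x x.2)
    have hf : Function.Surjective f := by
      rintro ⟨y, hy⟩
      obtain ⟨g, rfl⟩ := hsurj y
      obtain ⟨v, hv, hvg⟩ := norm_surj hp M X hM hXp g hy
      exact ⟨⟨v, hv⟩, Subtype.ext hvg⟩
    exact hPa2 p _ _ hp f hf hPN
  have hcardQ : Nat.card (G ⧸ M) < Nat.card G := by
    have h1 := Subgroup.card_eq_card_quotient_mul_card_subgroup M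
    have h2 : 1 < Nat.card M := by
      rw [Subgroup.one_lt_card_iff_ne_bot]; exact hne
    have h3 : 0 < Nat.card (G ⧸ M) := Nat.card_pos
    rw [h1]
    nlinarith
  have hidx : ¬ p ∣ (P.map π).index := by
    intro h
    exact hSyl.2 (h.trans (Subgroup.index_map_dvd P hsurj))
  have hQ : PN p (G ⧸ M) := by
    refine hI (G ⧸ M) (P.map π) hcardQ ⟨⟨hSyl.1.map π, hidx⟩, ?_, ?_⟩
    · rw [hJJ]; exact key _ (hJle p _ P) hPN1
    · rw [hOZ]; exact key _ (hOle p _ P) hPN2
  exact hPa3 p G M hp hM hQ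

end Pool.Agent.helper94.TH
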